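import Pool.Agent.Work.MP_ef7f46_co.Interface

set_option autoImplicit false
set_option linter.unusedSectionVars false
open Classical Filter Topology

namespace EpsNet
namespace H26

open Ctx

variable {P I : Type} [Fintype P] [Fintype I] {X : Ctx P I}

theorem four_le_t {J σ Y : ℝ} (h : X.Hyp J σ Y) : (4 : ℝ) ≤ X.t := by
  have h2 := h.t_ge
  have h3 := h.k_pos
  have h4 : 4 ≤ X.t := by omega
  exact_mod_cast h4

theorem four_le_K {J σ Y : ℝ} (h : X.Hyp J σ Y) : 4 ≤ X.K :=
  (four_le_t h).trans h.K_ge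

theorem beta_pos {J σ Y : ℝ} (h : X.Hyp J σ Y) : 0 < X.β := by linarith [h.β_ge]

theorem wt_nonneg {J σ Y : ℝ} (h : X.Hyp J σ Y) (T : Finset I) (g : I → ℝ) (v : I) (s : P) :
    0 ≤ X.wt T g v s := by
  unfold wt
  have := beta_pos h
  positivity

theorem one_le_Z {J σ Y : ℝ} (h : X.Hyp J σ Y) (T : Finset I) (g : I → ℝ) (v : I) :
    1 ≤ X.Z T g v := by
  unfold Z
  have := Finset.sum_nonneg (fun s (_ : s ∈ X.seen v) => wt_nonneg h T g v s)
  linarith

theorem prob_nonneg {J σ Y : ℝ} (h : X.Hyp J σ Y) (T : Finset I) (g : I → ℝ) (v : I) (s : P) :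
    0 ≤ X.prob T g v s :=
  div_nonneg (wt_nonneg h T g v s) (zero_le_one.trans (one_le_Z h T g v))

theorem prob_le_wt {J σ Y : ℝ} (h : X.Hyp J σ Y) (T : Finset I) (g : I → ℝ) (v : I) (s : P) :
    X.prob T g v s ≤ X.wt T g v s :=
  div_le_self (wt_nonneg h T g v s) (one_le_Z h T g v)

theorem hasDerivAt_update (g : I → ℝ) (i j : I) (x0 : ℝ) :
    HasDerivAt (fun x => Function.update g i x j) (if j = i then 1 else 0) x0 := by
  by_cases hj : j = i
  · subst hj
    simp only [Function.update_self, if_true]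
    exact hasDerivAt_id x0
  · simp only [Function.update_of_ne hj, if_neg hj]
    exact hasDerivAt_const x0 (g j)

theorem hasDerivAt_pen (g : I → ℝ) (i v : I) (s : P) (x0 : ℝ) :
    HasDerivAt (fun x => X.pen (Function.update g i x) v s)
      (if i ∈ (X.inc s).erase v then 1 else 0) x0 := by
  have h := HasDerivAt.fun_sum (u := (X.inc s).erase v)
    (fun j (_ : j ∈ (X.inc s).erase v) => hasDerivAt_update g i j x0)
  rw [Finset.sum_ite_eq'] at h
  exact h

theorem hasDerivAt_wt (T : Finset I) (g : I → ℝ) (i v : I) (s : P) :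
    HasDerivAt (fun x => X.wt T (Function.update g i x) v s)
      (-(if i ∈ (X.inc s).erase v then X.wt T g v s else 0)) (g i) := by
  unfold wt
  have h := (((hasDerivAt_pen (X := X) g i v s (g i)).neg.exp).const_mul (X.β ^ X.tau T v s)).div_const
    ((X.seen v).card : ℝ)
  refine h.congr_deriv ?_
  simp only [Function.update_eq_self, Pi.neg_apply]
  split_ifs <;> ring

theorem hasDerivAt_logZ {J σ Y : ℝ} (h : X.Hyp J σ Y) (T : Finset I) (g : I → ℝ) (i v : I) :
    HasDerivAt (fun x => Real.log (X.Z T (Function.update g i x) v))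
      (-(if v ≠ i then ∑ s ∈ (X.seen v).filter (fun s => i ∈ X.inc s), X.prob T g v s else 0))
      (g i) := by
  have h1 : HasDerivAt (fun x => X.Z T (Function.update g i x) v)
      (∑ s ∈ X.seen v, -(if i ∈ (X.inc s).erase v then X.wt T g v s else 0)) (g i) := by
    unfold Z
    exact (HasDerivAt.fun_sum (fun s _ => hasDerivAt_wt T g i v s)).const_add 1
  have hZ : X.Z T (Function.update g i (g i)) v ≠ 0 := by
    have := one_le_Z h T (Function.update g i (g i)) v
    linarith
  refine (h1.log hZ).congr_deriv ?_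
  rw [Function.update_eq_self, Finset.sum_neg_distrib, neg_div]
  congr 1
  by_cases hv : v = i
  · subst hv
    simp
  · rw [if_pos hv, Finset.sum_div, Finset.sum_filter]
    refine Finset.sum_congr rfl fun s _ => ?_
    have : i ∈ (X.inc s).erase v ↔ i ∈ X.inc s := by
      rw [Finset.mem_erase]
      exact ⟨fun h => h.2, fun h => ⟨fun e => hv e.symm, h⟩⟩
    unfold prob
    by_cases hi : i ∈ X.inc s
    · rw [if_pos (this.2 hi), if_pos hi]
    · rw [if_neg (fun h => hi (this.1 h)), if_neg hi, zero_div]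

theorem hasDerivAt_L {J σ Y : ℝ} (h : X.Hyp J σ Y) (T : Finset I) (g : I → ℝ) (i : I) :
    HasDerivAt (fun x => X.L T (Function.update g i x)) (X.K * g i - X.load T g i) (g i) := by
  unfold L
  have h1 := HasDerivAt.fun_sum (u := X.walkers) (fun v _ => hasDerivAt_logZ h T g i v)
  have h2 : HasDerivAt (fun x => X.K / 2 * ∑ j, Function.update g i x j ^ 2) (X.K * g i) (g i) := by
    have := (HasDerivAt.fun_sum (u := Finset.univ)
      (fun j _ => (hasDerivAt_update g i j (g i)).pow 2)).const_mul (X.K / 2)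
    refine this.congr_deriv ?_
    simp only [Function.update_eq_self]
    rw [Finset.sum_eq_single i]
    · simp
      ring
    · intro j _ hj
      simp [hj]
    · intro hi
      exact absurd (Finset.mem_univ i) hi
  refine (h1.add h2).congr_deriv ?_
  have h3 : ∑ v ∈ X.walkers, -(if v ≠ i then
      ∑ s ∈ (X.seen v).filter (fun s => i ∈ X.inc s), X.prob T g v s else 0) =
      - X.load T g i := by
    rw [Finset.sum_neg_distrib]
    congr 1
    unfold load
    rw [← Finset.filter_ne', Finset.sum_filter]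
  rw [h3]
  ring

theorem continuous_pen (v : I) (s : P) : Continuous (fun g : I → ℝ => X.pen g v s) := by
  unfold pen
  exact continuous_finsetSum _ fun i _ => continuous_apply i

theorem continuous_L {J σ Y : ℝ} (h : X.Hyp J σ Y) (T : Finset I) :
    Continuous (fun g : I → ℝ => X.L T g) := by
  unfold L
  refine Continuous.add (continuous_finsetSum _ fun v _ => ?_)
    (continuous_const.mul (continuous_finsetSum _ fun i _ => (continuous_apply i).pow 2))
  refine Continuous.log ?_ ?_
  · unfold Z wt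
    refine continuous_const.add (continuous_finsetSum _ fun s _ => ?_)
    exact (continuous_const.mul ((continuous_pen v s).neg.rexp)).div_const _
  · intro g
    have := one_le_Z h T g v
    linarith

theorem L_ge {J σ Y : ℝ} (h : X.Hyp J σ Y) (T : Finset I) (g : I → ℝ) :
    X.K / 2 * ∑ i, g i ^ 2 ≤ X.L T g := by
  unfold L
  have := Finset.sum_nonneg (fun v (_ : v ∈ X.walkers) => Real.log_nonneg (one_le_Z h T g v))
  linarith

theorem norm_sq_le (g : I → ℝ) : ‖g‖ ^ 2 ≤ ∑ i, g i ^ 2 := by
  have h0 : 0 ≤ ∑ i, g i ^ 2 := Finset.sum_nonneg fun i _ => sq_nonneg _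
  have h1 : ‖g‖ ≤ Real.sqrt (∑ i, g i ^ 2) := by
    rw [pi_norm_le_iff_of_nonneg (Real.sqrt_nonneg _)]
    intro i
    rw [Real.norm_eq_abs]
    refine Real.abs_le_sqrt ?_
    exact Finset.single_le_sum (f := fun i => g i ^ 2) (fun j _ => sq_nonneg _) (Finset.mem_univ i)
  calc ‖g‖ ^ 2 ≤ Real.sqrt (∑ i, g i ^ 2) ^ 2 := by gcongr
    _ = _ := Real.sq_sqrt h0

end H26

open Ctx H26 in
theorem stmt_S1 : Stmt_S1 := by
  intro P I _ _ X J σ Y h T g0
  have hK := four_le_K h
  have hcl : IsClosed {g : I → ℝ | ∀ i ∈ T, g i = g0 i} := by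
    have : {g : I → ℝ | ∀ i ∈ T, g i = g0 i} = ⋂ i ∈ T, {g : I → ℝ | g i = g0 i} := by
      ext g
      simp
    rw [this]
    exact isClosed_biInter fun i _ => isClosed_eq (continuous_apply i) continuous_const
  have hco : ∀ᶠ g in cocompact (I → ℝ) ⊓ 𝓟 {g : I → ℝ | ∀ i ∈ T, g i = g0 i},
      X.L T g0 ≤ X.L T g := by
    refine Filter.Eventually.filter_mono inf_le_left ?_
    have h1 : Tendsto (fun g : I → ℝ => ‖g‖ ^ 2) (cocompact (I → ℝ)) atTop :=
      (tendsto_pow_atTop two_ne_zero).comp tendsto_norm_cocompact_atTop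
    filter_upwards [h1.eventually_ge_atTop (X.L T g0)] with g hg
    have h2 := L_ge h T g
    have h3 := norm_sq_le g
    have h0 : 0 ≤ ∑ i, g i ^ 2 := Finset.sum_nonneg fun i _ => sq_nonneg _
    nlinarith
  obtain ⟨g, hgG, hmin⟩ := (continuous_L h T).continuousOn.exists_isMinOn' hcl
    (x₀ := g0) (fun i _ => rfl) hco
  refine ⟨g, hgG, ?_⟩
  intro i hi
  have h1 : IsLocalMin (fun x => X.L T (Function.update g i x)) (g i) := by
    refine Filter.Eventually.of_forall fun x => ?_
    simp only [Function.update_eq_self]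
    refine hmin ?_
    intro j hj
    have : j ≠ i := fun e => hi (e ▸ hj)
    rw [Function.update_of_ne this]
    exact hgG j hj
  have h2 := h1.hasDerivAt_eq_zero (hasDerivAt_L h T g i)
  linarith

end EpsNet
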