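import Pool.Agent.Work.MP_ef7f46_co_helper26.S1

set_option autoImplicit false
set_option linter.unusedSectionVars false
open Classical Filter Topology

namespace EpsNet
namespace H26

open Ctx

variable {P I : Type} [Fintype P] [Fintype I] {X : Ctx P I}

/-- exchange of sums (B4) -/
theorem exchange (T : Finset I) (g f : I → ℝ) :
    ∑ v ∈ X.walkers, ∑ s ∈ X.seen v, X.prob T g v s * ∑ i ∈ (X.inc s).erase v, f i =
      ∑ i, X.load T g i * f i := by
  have h1 : ∀ i, X.load T g i * f i = ∑ v ∈ X.walkers, ∑ s ∈ X.seen v,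
      if i ∈ (X.inc s).erase v then X.prob T g v s * f i else 0 := by
    intro i
    unfold load
    rw [← Finset.filter_ne', Finset.sum_filter, Finset.sum_mul]
    refine Finset.sum_congr rfl fun v _ => ?_
    by_cases hv : v = i
    · subst hv
      simp
    · rw [if_pos hv, Finset.sum_filter, Finset.sum_mul]
      refine Finset.sum_congr rfl fun s _ => ?_
      by_cases hi : i ∈ X.inc s
      · rw [if_pos hi, if_pos (Finset.mem_erase.2 ⟨fun e => hv e.symm, hi⟩)]
      · rw [if_neg hi, if_neg (fun h => hi (Finset.mem_erase.1 h).2), zero_mul]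
  simp_rw [h1]
  rw [Finset.sum_comm]
  refine Finset.sum_congr rfl fun v _ => ?_
  rw [Finset.sum_comm]
  refine Finset.sum_congr rfl fun s _ => ?_
  rw [Finset.mul_sum, ← Finset.sum_filter, Finset.filter_mem_eq_inter, Finset.univ_inter]

theorem wt_change {J σ Y : ℝ} (h : X.Hyp J σ Y) (T : Finset I) (g g' : I → ℝ) (v : I) (s : P) :
    X.wt T g' v s = X.wt T g v s * Real.exp (-(X.pen g' v s - X.pen g v s)) := by
  unfold wt
  rw [show -(X.pen g' v s) = -(X.pen g v s) + -(X.pen g' v s - X.pen g v s) by ring, Real.exp_add]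
  ring

theorem sum_prob {J σ Y : ℝ} (h : X.Hyp J σ Y) (T : Finset I) (g : I → ℝ) (v : I) :
    1 / X.Z T g v + ∑ s ∈ X.seen v, X.prob T g v s = 1 := by
  unfold prob
  rw [← Finset.sum_div, ← add_div]
  have h1 := one_le_Z h T g v
  exact div_self (by unfold Z at h1; linarith)

theorem logZ_tangent {J σ Y : ℝ} (h : X.Hyp J σ Y) (T : Finset I) (g g' : I → ℝ) (v : I) :
    Real.log (X.Z T g v) - ∑ s ∈ X.seen v, X.prob T g v s * (X.pen g' v s - X.pen g v s) ≤
      Real.log (X.Z T g' v) := by
  set m := - ∑ s ∈ X.seen v, X.prob T g v s * (X.pen g' v s - X.pen g v s) with hm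
  have hZ := one_le_Z h T g v
  have hZ' := one_le_Z h T g' v
  have hZ0 : 0 < X.Z T g v := by linarith
  have key : Real.exp m * X.Z T g v ≤ X.Z T g' v := by
    have e1 : ∀ x : ℝ, Real.exp m * (1 + (x - m)) ≤ Real.exp x := by
      intro x
      have := Real.add_one_le_exp (x - m)
      calc Real.exp m * (1 + (x - m)) ≤ Real.exp m * Real.exp (x - m) := by
            have := Real.exp_pos m
            gcongr
            linarith
        _ = Real.exp x := by rw [← Real.exp_add]; ring_nf
    have e2 : X.Z T g' v = 1 * Real.exp 0 + ∑ s ∈ X.seen v, X.wt T g v s *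
        Real.exp (-(X.pen g' v s - X.pen g v s)) := by
      unfold Z
      rw [Real.exp_zero, one_mul]
      congr 1
      exact Finset.sum_congr rfl fun s _ => wt_change h T g g' v s
    have e3 : 1 * (Real.exp m * (1 + (0 - m))) + ∑ s ∈ X.seen v, X.wt T g v s *
        (Real.exp m * (1 + (-(X.pen g' v s - X.pen g v s) - m))) ≤ X.Z T g' v := by
      rw [e2]
      refine add_le_add (by rw [one_mul, one_mul]; exact e1 0) ?_
      exact Finset.sum_le_sum fun s _ => mul_le_mul_of_nonneg_left (e1 _) (wt_nonneg h T g v s)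
    refine le_trans (le_of_eq ?_) e3
    have e4 : ∑ s ∈ X.seen v, X.wt T g v s *
        (Real.exp m * (1 + (-(X.pen g' v s - X.pen g v s) - m))) =
        Real.exp m * ((1 - m) * ∑ s ∈ X.seen v, X.wt T g v s -
          ∑ s ∈ X.seen v, X.wt T g v s * (X.pen g' v s - X.pen g v s)) := by
      rw [Finset.mul_sum, ← Finset.sum_sub_distrib, Finset.mul_sum]
      refine Finset.sum_congr rfl fun s _ => ?_
      ring
    have e5 : ∑ s ∈ X.seen v, X.wt T g v s * (X.pen g' v s - X.pen g v s) = - m * X.Z T g v := by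
      rw [hm, neg_neg, Finset.sum_mul]
      refine Finset.sum_congr rfl fun s _ => ?_
      unfold prob
      field_simp
    have e6 : ∑ s ∈ X.seen v, X.wt T g v s = X.Z T g v - 1 := by
      unfold Z
      ring
    rw [e4, e5, e6]
    ring
  have := Real.log_le_log (by positivity) key
  rw [Real.log_mul (Real.exp_pos m).ne' hZ0.ne', Real.log_exp] at this
  rw [hm] at this
  linarith

end H26

open Ctx H26 in
theorem stmt_S2 : Stmt_S2 := by
  intro P I _ _ X J σ Y h T g g'
  have h1 := Finset.sum_le_sum (fun v (_ : v ∈ X.walkers) => logZ_tangent h T g g' v)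
  rw [Finset.sum_sub_distrib] at h1
  have h2 : ∑ v ∈ X.walkers, ∑ s ∈ X.seen v, X.prob T g v s * (X.pen g' v s - X.pen g v s) =
      ∑ i, X.load T g i * (g' i - g i) := by
    rw [← exchange]
    refine Finset.sum_congr rfl fun v _ => Finset.sum_congr rfl fun s _ => ?_
    unfold pen
    rw [Finset.sum_sub_distrib]
  rw [h2] at h1
  unfold L
  rw [Finset.sum_sub_distrib]
  linarith

end EpsNet
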