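import Pool.Agent.Work.MP_ef7f46_co.Basic

set_option autoImplicit false
set_option linter.unusedSectionVars false
open Classical

namespace EpsNet

open Ctx in
theorem stmt_S6 : Stmt_S6 := by
  intro P I _ _ X J σ Y h T g hT hst
  have hK := K_pos h
  have h0 : ∀ i, 0 ≤ g i := by
    intro i
    by_cases hi : i ∈ T
    · exact (hT i hi).1
    · have h1 := hst i hi
      have h2 := load_nonneg h T g i
      have : 0 ≤ X.K * g i := by rw [h1]; exact h2
      exact nonneg_of_mul_nonneg_right this (by linarith)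
  intro i
  refine ⟨h0 i, ?_⟩
  by_cases hi : i ∈ T
  · exact (hT i hi).2
  by_contra hlt
  push Not at hlt
  have hβ := β_pos h
  have hr := r_pos' h
  have ht := t_pos' h
  have hY := h.Y_pos
  have hst' := hst i hi
  -- bound of the number of points
  have hpts : ((X.pts i).card : ℝ) ≤ σ * X.r := by
    rcases (X.pts i).eq_empty_or_nonempty with he | ⟨s, hs⟩
    · rw [he, Finset.card_empty, Nat.cast_zero]
      have := h.σ_pos
      positivity
    · rw [mem_pts] at hs
      refine le_trans ?_ (h.sig s)
      exact Finset.single_le_sum (f := fun i => ((X.pts i).card : ℝ)) (fun j _ => by positivity) hs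
  set c := 16 * X.β ^ X.k * Real.exp (-(g i)) / X.r with hc
  have hc0 : 0 ≤ c := by positivity
  have hload : X.load T g i ≤ (X.t * (X.pts i).card : ℝ) * c := by
    have h1 : X.load T g i ≤ ∑ v ∈ X.walkers.erase i,
        ∑ s ∈ (X.seen v).filter (fun s => i ∈ X.inc s), c := by
      refine Finset.sum_le_sum fun v hv => Finset.sum_le_sum fun s hs => ?_
      have hv' := Finset.mem_erase.1 hv
      have hs' := Finset.mem_filter.1 hs
      refine (prob_le_wt h T g v s).trans ((wt_le_exp h T g hv'.2 s).trans ?_)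
      rw [hc]
      have e1 := βpow_tau_le h T v s
      have e2 : Real.exp (-(X.pen g v s)) ≤ Real.exp (-(g i)) := by
        rw [Real.exp_le_exp]
        have := le_pen (X := X) h0 hs'.2 (Ne.symm hv'.1)
        linarith
      gcongr
    refine h1.trans ?_
    have h2 : ∑ v ∈ X.walkers.erase i, ∑ s ∈ (X.seen v).filter (fun s => i ∈ X.inc s), c =
        ((∑ v ∈ X.walkers.erase i, ((X.seen v).filter (fun s => i ∈ X.inc s)).card : ℕ) : ℝ) * c := by
      simp only [Finset.sum_const, nsmul_eq_mul]
      rw [← Finset.sum_mul]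
      push_cast
      rfl
    rw [h2]
    have h3 : ∑ v ∈ X.walkers.erase i, ((X.seen v).filter (fun s => i ∈ X.inc s)).card ≤
        X.t * (X.pts i).card := by
      rw [← main_count h (X.pts i)]
      refine (Finset.sum_le_sum (f := fun v => ((X.seen v).filter (fun s => i ∈ X.inc s)).card)
        (g := fun v => ((X.pts i).filter (fun s => v ∈ X.inc s)).card) fun v hv => ?_).trans ?_
      · refine Finset.card_le_card fun s hs => ?_
        rw [Finset.mem_filter, mem_seen] at hs
        rw [Finset.mem_filter, mem_pts]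
        exact ⟨hs.2, hs.1.2⟩
      · exact Finset.sum_le_sum_of_subset ((Finset.erase_subset _ _).trans X.walkers_sub)
    have h4 : ((∑ v ∈ X.walkers.erase i, ((X.seen v).filter (fun s => i ∈ X.inc s)).card : ℕ) : ℝ) ≤
        X.t * (X.pts i).card := by exact_mod_cast h3
    exact mul_le_mul_of_nonneg_right h4 hc0
  have hA : 0 < 16 * σ * X.t * X.β ^ X.k := by
    have := h.σ_pos
    positivity
  have hload2 : X.load T g i ≤ 16 * σ * X.t * X.β ^ X.k * Real.exp (-(g i)) := by
    refine hload.trans ?_
    calc (X.t * (X.pts i).card : ℝ) * c ≤ (X.t * (σ * X.r)) * c := by gcongr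
      _ = _ := by rw [hc]; field_simp
  have hexp : Real.exp (-(g i)) ≤ 1 / (16 * σ * X.t * X.β ^ X.k) := by
    have e1 : Real.exp (-(g i)) ≤ Real.exp (-Real.log (16 * σ * X.t * X.β ^ X.k)) := by
      rw [Real.exp_le_exp]
      have := h.Y_ge
      linarith
    rwa [Real.exp_neg, Real.exp_neg, Real.exp_log hA, ← Real.exp_neg, ← one_div] at e1
  have hload3 : X.load T g i ≤ 1 := by
    refine hload2.trans ?_
    calc 16 * σ * X.t * X.β ^ X.k * Real.exp (-(g i)) ≤
        16 * σ * X.t * X.β ^ X.k * (1 / (16 * σ * X.t * X.β ^ X.k)) :=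
          mul_le_mul_of_nonneg_left hexp hA.le
      _ = 1 := mul_one_div_cancel hA.ne'
  rw [← hst'] at hload3
  nlinarith

open Ctx in
theorem stmt_S7 : Stmt_S7 := by
  intro P I _ _ X J σ Y h
  have hr := h.r_pos
  have ht : 1 ≤ X.t := by have := h.t_ge; have := h.k_pos; omega
  -- dead points
  have h1 : X.t * (X.E \ X.live).card ≤ 2 * (X.r * (X.V \ X.C).card) := by
    have e1 : ∀ s ∈ X.E \ X.live, X.t ≤ 2 * ((X.V \ X.C).filter (fun v => v ∈ X.inc s)).card := by
      intro s hs
      rw [Finset.mem_sdiff, mem_live] at hs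
      have e2 : ¬ X.t ≤ 2 * (X.inc s ∩ X.C).card := fun hh => hs.2 ⟨hs.1, hh⟩
      have e3 := h.main_card s
      have e4 : (X.inc s ∩ X.V).card = (X.inc s ∩ X.C).card +
          ((X.V \ X.C).filter (fun v => v ∈ X.inc s)).card := by
        rw [← Finset.card_union_of_disjoint]
        · congr 1
          ext v
          simp only [Finset.mem_inter, Finset.mem_union, Finset.mem_filter, Finset.mem_sdiff]
          constructor
          · rintro ⟨a, b⟩
            by_cases hc : v ∈ X.C
            · exact Or.inl ⟨a, hc⟩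
            · exact Or.inr ⟨⟨b, hc⟩, a⟩
          · rintro (⟨a, b⟩ | ⟨⟨a, b⟩, c⟩)
            · exact ⟨a, h.C_sub b⟩
            · exact ⟨c, a⟩
        · rw [Finset.disjoint_left]
          intro v hv hv'
          exact (Finset.mem_sdiff.1 (Finset.mem_filter.1 hv').1).2 (Finset.mem_inter.1 hv).2
      omega
    have e5 : (X.E \ X.live).card * X.t ≤
        ∑ s ∈ X.E \ X.live, 2 * ((X.V \ X.C).filter (fun v => v ∈ X.inc s)).card := by
      rw [← smul_eq_mul]
      exact Finset.card_nsmul_le_sum _ _ _ e1
    rw [← Finset.mul_sum] at e5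
    have e6 : ∑ s ∈ X.E \ X.live, ((X.V \ X.C).filter (fun v => v ∈ X.inc s)).card =
        ∑ v ∈ X.V \ X.C, ((X.E \ X.live).filter (fun s => v ∈ X.inc s)).card :=
      (Finset.sum_card_bipartiteAbove_eq_sum_card_bipartiteBelow (fun v s => v ∈ X.inc s)).symm
    have e7 : ∑ v ∈ X.V \ X.C, ((X.E \ X.live).filter (fun s => v ∈ X.inc s)).card ≤
        (X.V \ X.C).card * X.r := by
      rw [← smul_eq_mul]
      refine Finset.sum_le_card_nsmul _ _ _ fun v hv => ?_
      refine le_trans (Finset.card_le_card fun s hs => ?_) (h.pts_le v (Finset.mem_sdiff.1 hv).1)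
      rw [mem_pts]
      exact (Finset.mem_filter.1 hs).2
    rw [e6] at e5
    nlinarith
  have h2 : 16 * (X.V \ X.C).card ≤ X.V.card := by
    have e1 := Finset.card_sdiff_add_card_eq_card h.C_sub
    have e2 := h.C_big
    omega
  have h3 : (X.E \ X.live).card + X.live.card = X.E.card :=
    Finset.card_sdiff_add_card_eq_card X.live_sub
  have h4 : ∑ v ∈ X.V, (X.seen v).card = X.t * X.live.card := main_count h X.live
  have h5 : X.r * X.V.card ≤ 8 * (X.t * X.live.card) := by
    have e1 := h.many
    have e2 := h.half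
    have e3 : 16 * (X.r * (X.V \ X.C).card) ≤ X.r * X.V.card := by nlinarith
    have e4 : X.t * (X.E \ X.live).card + X.t * X.live.card = X.t * X.E.card := by
      rw [← mul_add, h3]
    have e5 : 2 * X.t * Fintype.card P ≤ 4 * (X.t * X.E.card) := by nlinarith
    omega
  have h6 : 16 * ∑ v ∈ X.V, (X.seen v).card ≤
      16 * (X.walkers.card * X.r) + X.V.card * X.r := by
    rw [← Finset.sum_sdiff X.walkers_sub]
    have e1 : ∑ v ∈ X.walkers, (X.seen v).card ≤ X.walkers.card * X.r := by
      rw [← smul_eq_mul]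
      exact Finset.sum_le_card_nsmul _ _ _ fun v hv => seen_card_le h (X.walkers_sub hv)
    have e2 : ∑ v ∈ X.V \ X.walkers, 16 * (X.seen v).card ≤ (X.V \ X.walkers).card * X.r := by
      rw [← smul_eq_mul]
      refine Finset.sum_le_card_nsmul _ _ _ fun v hv => ?_
      rw [Finset.mem_sdiff, mem_walkers] at hv
      by_contra hh
      exact hv.2 ⟨hv.1, by omega⟩
    rw [← Finset.mul_sum] at e2
    have e3 : (X.V \ X.walkers).card * X.r ≤ X.V.card * X.r :=
      Nat.mul_le_mul_right _ (Finset.card_le_card Finset.sdiff_subset)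
    omega
  rw [h4] at h6
  have h7 : X.r * X.V.card ≤ X.r * (16 * X.walkers.card) := by nlinarith
  exact Nat.le_of_mul_le_mul_left h7 hr

end EpsNet
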